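import Pool.Agent.Y113.Defs2

/-!
# Project GF: Wronskians of power series, existence of solutions at ordinary points
-/

set_option autoImplicit false

open PowerSeries

namespace Pool.Agent.Y141.GF

variable {K : Type} [Field K]

/-- power series with proportional derivatives are proportional -/
theorem const_of_wr [CharZero K] (u v : K⟦X⟧) (hv : v ≠ 0) (h : d⁄dX K u * v = u * d⁄dX K v) :
    ∃ c : K, u = PowerSeries.C c * v := by
  set n := v.order.toNat with hn
  set w := divXPowOrder v with hw
  have hvw : (X : K⟦X⟧) ^ n * w = v := X_pow_order_mul_divXPowOrder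
  have hw0 : constantCoeff w ≠ 0 := by
    rw [Ne, hw, constantCoeff_divXPowOrder_eq_zero_iff]
    exact hv
  set q := u * w⁻¹ with hq
  have hqw : q * w = u := by
    rw [hq, mul_assoc, PowerSeries.inv_mul_cancel w hw0, mul_one]
  have hwne : w ≠ 0 := by
    intro h0
    apply hw0
    rw [h0, map_zero]
  -- the equation for `q`
  have h1 : X * d⁄dX K q = (n : K⟦X⟧) * q := by
    have h2 : ((X : K⟦X⟧) ^ n * w ^ 2) * (X * d⁄dX K q) = ((X : K⟦X⟧) ^ n * w ^ 2) * ((n : K⟦X⟧) * q) := by
      have h3 : X * (d⁄dX K u * v) = X * (u * d⁄dX K v) := by rw [h]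
      rw [← hvw, ← hqw] at h3
      simp only [Derivation.leibniz, smul_eq_mul, Derivation.leibniz_pow, PowerSeries.derivative_X,
        nsmul_eq_mul, mul_one] at h3
      rcases Nat.eq_zero_or_pos n with h0 | h0
      · rw [h0] at h3 ⊢
        simp only [pow_zero, Nat.cast_zero, zero_mul, mul_zero, one_mul, zero_add, add_zero] at h3 ⊢
        linear_combination h3
      · obtain ⟨k, hk⟩ : ∃ k, n = k + 1 := ⟨n - 1, by omega⟩
        rw [hk] at h3 ⊢
        simp only [Nat.add_sub_cancel] at h3
        linear_combination h3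
    exact mul_left_cancel₀ (mul_ne_zero (pow_ne_zero _ X_ne_zero) (pow_ne_zero _ hwne)) h2
  have h4 : ∀ k, k ≠ n → coeff k q = 0 := by
    intro k hk
    have h5 := congrArg (coeff k) h1
    rcases Nat.eq_zero_or_pos k with h0 | h0
    · subst h0
      rw [coeff_zero_X_mul] at h5
      have h6 : (n : K⟦X⟧) = PowerSeries.C (n : K) := by simp
      rw [h6, coeff_C_mul] at h5
      have h7 : (n : K) ≠ 0 := by exact_mod_cast (Ne.symm hk)
      rcases mul_eq_zero.mp h5.symm with h | h
      · exact absurd h h7
      · exact h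
    · obtain ⟨j, hj⟩ : ∃ j, k = j + 1 := ⟨k - 1, by omega⟩
      subst hj
      have h6 : (n : K⟦X⟧) = PowerSeries.C (n : K) := by simp
      rw [h6, coeff_C_mul, coeff_succ_X_mul, PowerSeries.coeff_derivative] at h5
      have h7 : ((j : K) + 1 - n) ≠ 0 := by
        have : ((j : K) + 1 - n) = (((j + 1 : ℕ) : K)) - (n : K) := by push_cast; ring
        rw [this, sub_ne_zero]
        exact_mod_cast hk
      have h8 : ((j : K) + 1 - n) * coeff (j + 1) q = 0 := by linear_combination h5
      rcases mul_eq_zero.mp h8 with h | h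
      · exact absurd h h7
      · exact h
  refine ⟨coeff n q, ?_⟩
  have h9 : q = PowerSeries.C (coeff n q) * X ^ n := by
    ext k
    rw [coeff_C_mul, coeff_X_pow]
    by_cases hk : k = n
    · simp [hk]
    · simp [hk, h4 k hk]
  calc u = q * w := hqw.symm
    _ = (PowerSeries.C (coeff n q) * X ^ n) * w := by rw [← h9]
    _ = _ := by rw [mul_assoc, hvw]

/-- The Wronskian theorem for power series, with the derivation `t d/dX`. -/
theorem wr_ne_zero [CharZero K] (t : K⟦X⟧) (ht : t ≠ 0) (m : ℕ) : ∀ g : Fin m → K⟦X⟧, LinearIndependent K g →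
    (Matrix.of fun i r : Fin m => (fun f => t * d⁄dX K f)^[(r : ℕ)] (g i)).det ≠ 0 := by
  set D : K⟦X⟧ → K⟦X⟧ := fun f => t * d⁄dX K f with hD
  have hDadd : ∀ f g, D (f + g) = D f + D g := by
    intro f g
    simp only [hD, map_add, mul_add]
  have hDmul : ∀ f g, D (f * g) = D f * g + f * D g := by
    intro f g
    simp only [hD, Derivation.leibniz, smul_eq_mul]
    ring
  have hDsum : ∀ (k : ℕ) (f : Fin k → K⟦X⟧), D (∑ i, f i) = ∑ i, D (f i) := by
    intro k f
    simp only [hD, map_sum, Finset.mul_sum]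
  have hD0 : D 0 = 0 := by simp [hD]
  induction m with
  | zero =>
    intro f _
    rw [Matrix.det_isEmpty]
    exact one_ne_zero
  | succ m ih =>
    intro f hf h0
    obtain ⟨v, hv0, hv⟩ := Matrix.exists_vecMul_eq_zero_iff.2 h0
    have hrel : ∀ r : Fin (m + 1), ∑ i, v i * D^[(r : ℕ)] (f i) = 0 := by
      intro r
      have := congrFun hv r
      exact this
    have hW := ih (fun i : Fin m => f i.castSucc) (hf.comp _ (Fin.castSucc_injective m))
    have hlast : v (Fin.last m) ≠ 0 := by
      intro hl
      apply hv0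
      have h1 : (fun i : Fin m => v i.castSucc) = 0 := by
        apply Matrix.eq_zero_of_vecMul_eq_zero hW
        funext r
        have := hrel r.castSucc
        rw [Fin.sum_univ_castSucc, hl, zero_mul, add_zero] at this
        exact this
      funext i
      refine Fin.lastCases ?_ (fun i => ?_) i
      · exact hl
      · exact congrFun h1 i
    have hrel2 : ∀ r : Fin m, ∑ i, D (v i) * D^[(r : ℕ)] (f i) = 0 := by
      intro r
      have h1 := congrArg D (hrel r.castSucc)
      have h2 := hrel r.succ
      rw [hD0, hDsum] at h1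
      simp only [hDmul, Finset.sum_add_distrib] at h1
      have h3 : ∑ i, v i * D (D^[(r.castSucc : ℕ)] (f i)) = 0 := by
        rw [← h2]
        refine Finset.sum_congr rfl fun i _ => ?_
        rw [Fin.val_succ, Function.iterate_succ_apply', Fin.val_castSucc]
      rw [h3, add_zero] at h1
      exact h1
    have hz : (fun i : Fin m => v (Fin.last m) * D (v i.castSucc) - D (v (Fin.last m)) * v i.castSucc) = 0 := by
      apply Matrix.eq_zero_of_vecMul_eq_zero hW
      funext r
      change ∑ i : Fin m, (v (Fin.last m) * D (v i.castSucc) - D (v (Fin.last m)) * v i.castSucc) *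
        D^[(r : ℕ)] (f i.castSucc) = 0
      have h1 := hrel r.castSucc
      have h2 := hrel2 r
      rw [Fin.sum_univ_castSucc] at h1 h2
      simp only [Fin.val_castSucc] at h1
      have h3 : ∑ i : Fin m, (v (Fin.last m) * D (v i.castSucc) - D (v (Fin.last m)) * v i.castSucc) *
          D^[(r : ℕ)] (f i.castSucc) = v (Fin.last m) * (∑ i : Fin m, D (v i.castSucc) * D^[(r : ℕ)] (f i.castSucc))
            - D (v (Fin.last m)) * (∑ i : Fin m, v i.castSucc * D^[(r : ℕ)] (f i.castSucc)) := by
        rw [Finset.mul_sum, Finset.mul_sum, ← Finset.sum_sub_distrib]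
        exact Finset.sum_congr rfl fun i _ => by ring
      rw [h3]
      linear_combination v (Fin.last m) * h2 - D (v (Fin.last m)) * h1
    have hc : ∀ i : Fin m, ∃ c : K, v i.castSucc = PowerSeries.C c * v (Fin.last m) := by
      intro i
      apply const_of_wr _ _ hlast
      have h1 := congrFun hz i
      simp only [hD, Pi.zero_apply] at h1
      have h2 : t * (d⁄dX K (v i.castSucc) * v (Fin.last m)) = t * (v i.castSucc * d⁄dX K (v (Fin.last m))) := by
        linear_combination h1
      exact mul_left_cancel₀ ht h2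
    choose c hc using hc
    have h5 := hrel 0
    simp only [Fin.val_zero, Function.iterate_zero, id] at h5
    rw [Fin.sum_univ_castSucc] at h5
    have h6 : v (Fin.last m) * (∑ i : Fin m, PowerSeries.C (c i) * f i.castSucc + f (Fin.last m)) = 0 := by
      rw [mul_add, Finset.mul_sum]
      rw [← h5]
      congr 1
      refine Finset.sum_congr rfl fun i _ => ?_
      rw [hc i]
      ring
    have h7 : ∑ i : Fin m, PowerSeries.C (c i) * f i.castSucc + f (Fin.last m) = 0 := by
      rcases mul_eq_zero.mp h6 with h | h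
      · exact absurd h hlast
      · exact h
    have h8 := Fintype.linearIndependent_iff.mp hf (Fin.snoc (α := fun _ => K) c 1) (by
      rw [Fin.sum_univ_castSucc]
      simp only [Fin.snoc_castSucc, Fin.snoc_last, one_smul]
      rw [← h7]
      congr 1
      refine Finset.sum_congr rfl fun i _ => ?_
      rw [PowerSeries.smul_eq_C_mul]) (Fin.last m)
    rw [Fin.snoc_last] at h8
    exact one_ne_zero h8

/-- the coefficients of the solution -/
noncomputable def sol {N : ℕ} (A : Fin N → Fin N → ℕ → K) (v : Fin N → K) : ℕ → Fin N → K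
  | 0 => v
  | n + 1 => fun i => ((n : K) + 1)⁻¹ * ∑ j, ∑ q : Fin (n + 1), A i j (n - q) * sol A v q j
  decreasing_by exact q.2

theorem ode_exists [CharZero K] {N : ℕ} (A : Fin N → Fin N → K⟦X⟧) (v : Fin N → K) :
    ∃ w : Fin N → K⟦X⟧, (∀ i, constantCoeff (w i) = v i) ∧ ∀ i, d⁄dX K (w i) = ∑ j, A i j * w j := by
  set s := sol (fun i j n => coeff n (A i j)) v with hs
  refine ⟨fun i => PowerSeries.mk fun n => s n i, ?_, ?_⟩
  · intro i
    rw [← coeff_zero_eq_constantCoeff_apply, coeff_mk, hs, sol]
  · intro i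
    ext n
    rw [PowerSeries.coeff_derivative, coeff_mk, map_sum]
    have h1 : s (n + 1) i = ((n : K) + 1)⁻¹ * ∑ j, ∑ q : Fin (n + 1), coeff (n - q) (A i j) * s q j := by
      rw [hs, sol]
    have h2 : ((n : K) + 1) ≠ 0 := by exact_mod_cast Nat.succ_ne_zero n
    rw [h1, mul_comm, mul_inv_cancel_left₀ h2]
    refine Finset.sum_congr rfl fun j _ => ?_
    rw [PowerSeries.coeff_mul]
    rw [Finset.Nat.sum_antidiagonal_eq_sum_range_succ_mk, Finset.sum_range]
    rw [← (Equiv.sum_comp Fin.revPerm (fun q : Fin (n + 1) => coeff (n - q) (A i j) * s q j))]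
    refine Finset.sum_congr rfl fun q _ => ?_
    simp only [Fin.revPerm_apply, Fin.val_rev, coeff_mk]
    have h3 : n - (n + 1 - (q + 1)) = (q : ℕ) := by omega
    have h4 : n + 1 - (q + 1) = n - (q : ℕ) := by omega
    rw [h3, h4]

theorem t_loc : Pool.Agent.Y113.T_loc := by
  intro K _ _ N T B v hT
  have hT0 : constantCoeff (T : K⟦X⟧) ≠ 0 := by
    rw [Polynomial.constantCoeff_coe, Polynomial.coeff_zero_eq_eval_zero]
    exact hT
  obtain ⟨w, hw1, hw2⟩ := ode_exists (fun i j => (T : K⟦X⟧)⁻¹ * (B i j : K⟦X⟧)) v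
  refine ⟨w, hw1, fun i => ?_⟩
  rw [hw2 i, Finset.mul_sum]
  refine Finset.sum_congr rfl fun j _ => ?_
  rw [← mul_assoc, ← mul_assoc, PowerSeries.mul_inv_cancel _ hT0, one_mul]

end Pool.Agent.Y141.GF
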