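import Pool.Agent.Y141.GF.BD

/-!
# Project GF: Shidlovsky's lemma (`T_shid`)
-/

set_option autoImplicit false

open PowerSeries

namespace Pool.Agent.Y141.GF

open Pool.Agent.Y113 (nab)

variable {K : Type} [Field K]

theorem alg_part [CharZero K] {N : ℕ} (T : Polynomial K) (B : Fin N → Fin N → Polynomial K) (ξ : K)
    (hT : T.eval ξ ≠ 0) :
    ∃ c : ℕ, ∀ P : Fin N → Polynomial K, P ≠ 0 →
      (Matrix.of fun k j : Fin N => ((nab T B)^[(k : ℕ)] P) j).det = 0 →
    ∃ (r : ℕ) (f : Fin r → Fin N) (a : Fin r → Fin N → Polynomial K) (b : Polynomial K), 0 < r ∧ r < N ∧ b ≠ 0 ∧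
      (∀ j i, (a j i).natDegree ≤ c) ∧ (∀ j, a j (f j) = b) ∧
      (Matrix.of fun k j : Fin r => ((nab T B)^[(k : ℕ)] P) (f j)).det ≠ 0 ∧
      ∀ (k : Fin r) (i : Fin N), b * ((nab T B)^[(k : ℕ)] P) i =
        ∑ j, ((nab T B)^[(k : ℕ)] P) (f j) * a j i := by
  classical
  have hT0 : constantCoeff (phi ξ T) ≠ 0 := by rw [constantCoeff_phi]; exact hT
  have hTne : phi ξ T ≠ 0 := fun h => hT0 (by rw [h, map_zero])
  -- fundamental matrix
  have hex : ∀ l : Fin N, ∃ w : Fin N → K⟦X⟧, (∀ i, constantCoeff (w i) = if i = l then 1 else 0) ∧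
      ∀ i, d⁄dX K (w i) = ∑ j, (phi ξ T)⁻¹ * phi ξ (B i j) * w j := fun l => ode_exists _ _
  choose w hw1 hw2 using hex
  set W : Matrix (Fin N) (Fin N) K⟦X⟧ := Matrix.of fun i l => w l i with hW
  have hWde : ∀ l i, phi ξ T * d⁄dX K (w l i) = ∑ j, phi ξ (B i j) * w l j := by
    intro l i
    rw [hw2 l i, Finset.mul_sum]
    refine Finset.sum_congr rfl fun j _ => ?_
    rw [← mul_assoc, ← mul_assoc, PowerSeries.mul_inv_cancel _ hT0, one_mul]
  have hWdet : IsUnit W.det := by
    rw [PowerSeries.isUnit_iff_constantCoeff, RingHom.map_det]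
    have : (constantCoeff (R := K)).mapMatrix W = 1 := by
      ext i l
      simp [hW, hw1, Matrix.one_apply]
    rw [this, Matrix.det_one]
    exact isUnit_one
  set V := W⁻¹ with hV
  have hWV : W * V = 1 := Matrix.mul_nonsing_inv W hWdet
  -- the space of minors
  set S : Set K⟦X⟧ := Set.range (fun p : (Σ r : Fin N, (Fin r → Fin N) × (Fin r → Fin N)) =>
    (V.submatrix p.2.1 p.2.2).det) with hS
  have hEfin : Module.Finite K (Submodule.span K S) :=
    Module.Finite.span_of_finite K (Set.finite_range _)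
  obtain ⟨c, hc⟩ := bd ξ (Submodule.span K S)
  refine ⟨c, fun P hP hdet => ?_⟩
  set D : K⟦X⟧ → K⟦X⟧ := fun f => phi ξ T * d⁄dX K f with hD
  set ρ : Fin N → K⟦X⟧ := fun l => ∑ i, phi ξ (P i) * w l i with hρ
  have hiter : ∀ (k : ℕ) (l : Fin N), D^[k] (ρ l) = ∑ i, phi ξ ((nab T B)^[k] P i) * w l i := fun k l =>
    iter_form (phi ξ) (phi_deriv ξ) T B (w l) (hWde l) P k
  -- dependence
  have hdep : ¬ LinearIndependent K ρ := by
    intro hli
    apply wr_ne_zero (phi ξ T) hTne N ρ hli
    have h1 : (Matrix.of fun i r : Fin N => (fun f => phi ξ T * d⁄dX K f)^[(r : ℕ)] (ρ i)) =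
        ((phi ξ).mapMatrix (Matrix.of fun k j : Fin N => ((nab T B)^[(k : ℕ)] P) j) * W).transpose := by
      refine Matrix.ext fun i r => ?_
      rw [Matrix.transpose_apply, Matrix.mul_apply, Matrix.of_apply]
      exact hiter r i
    rw [h1, Matrix.det_transpose, Matrix.det_mul, ← RingHom.map_det, hdet, map_zero, zero_mul]
  -- basis
  obtain ⟨κ, h0, h0inj, h0span, h0li⟩ := exists_linearIndependent' K ρ
  have hκ : Finite κ := Finite.of_injective h0 h0inj
  obtain ⟨r, ⟨eκ⟩⟩ := Finite.exists_equiv_fin κ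
  set h : Fin r → Fin N := h0 ∘ eκ.symm with hh
  have hhinj : Function.Injective h := h0inj.comp eκ.symm.injective
  have hli : LinearIndependent K (ρ ∘ h) := h0li.comp _ eκ.symm.injective
  have hspan : Submodule.span K (Set.range (ρ ∘ h)) = Submodule.span K (Set.range ρ) := by
    rw [← h0span, hh, ← Function.comp_assoc, Set.range_comp (ρ ∘ h0) eκ.symm]
    rw [eκ.symm.surjective.range_eq, Set.image_univ]
  have hrN : r < N := by
    have h1 : r ≤ N := by simpa using Fintype.card_le_of_injective h hhinj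
    rcases h1.lt_or_eq with h2 | h2
    · exact h2
    · exfalso
      subst h2
      apply hdep
      have hbij : Function.Bijective h := (Fintype.bijective_iff_injective_and_card h).mpr ⟨hhinj, rfl⟩
      have h3 := hli.comp (Equiv.ofBijective h hbij).symm (Equiv.injective _)
      have h4 : (ρ ∘ h) ∘ (Equiv.ofBijective h hbij).symm = ρ := by
        funext i
        simp only [Function.comp_apply]
        congr 1
        exact (Equiv.ofBijective h hbij).apply_symm_apply i
      rwa [h4] at h3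
  have hr0 : 0 < r := by
    rcases Nat.eq_zero_or_pos r with h1 | h1
    swap
    · exact h1
    exfalso
    subst h1
    apply hP
    have h2 : ∀ l, ρ l = 0 := by
      intro l
      have h3 : ρ l ∈ Submodule.span K (Set.range ρ) := Submodule.subset_span ⟨l, rfl⟩
      rw [← hspan, Set.range_eq_empty, Submodule.span_empty, Submodule.mem_bot] at h3
      exact h3
    have h3 : (fun i => phi ξ (P i)) = 0 := by
      apply Matrix.eq_zero_of_vecMul_eq_zero (M := W) hWdet.ne_zero
      funext l
      exact h2 l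
    funext i
    have h4 := congrFun h3 i
    simp only [Pi.zero_apply] at h4
    exact (map_eq_zero_iff (phi ξ) (phi_injective ξ)).mp h4
  set g : Fin r → K⟦X⟧ := ρ ∘ h with hg
  -- the constants
  have hCex : ∀ i, ∃ C : Fin r → K, ∑ j, C j • g j = ρ i := by
    intro i
    have h3 : ρ i ∈ Submodule.span K (Set.range ρ) := Submodule.subset_span ⟨i, rfl⟩
    rw [← hspan] at h3
    exact (Submodule.mem_span_range_iff_exists_fun K).mp h3
  choose C hC using hCex
  have hDlin : ∀ (k : ℕ) (i : Fin N), D^[k] (ρ i) = ∑ j, PowerSeries.C (C i j) * D^[k] (g j) := by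
    intro k i
    induction k with
    | zero =>
      simp only [Function.iterate_zero, id]
      rw [← hC i]
      exact Finset.sum_congr rfl fun j _ => by rw [PowerSeries.smul_eq_C_mul]
    | succ k ih =>
      rw [Function.iterate_succ_apply', ih]
      simp only [hD, map_sum, Derivation.leibniz, smul_eq_mul, PowerSeries.derivative_C, mul_zero, add_zero,
        Finset.mul_sum]
      refine Finset.sum_congr rfl fun j _ => ?_
      rw [Function.iterate_succ_apply']
      ring
  set M : Matrix (Fin r) (Fin N) (Polynomial K) := Matrix.of fun k i => (nab T B)^[(k:ℕ)] P i with hM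
  set G : Matrix (Fin r) (Fin r) K⟦X⟧ := Matrix.of fun k j => D^[(k : ℕ)] (g j) with hG
  have hGdet : G.det ≠ 0 := by
    have h1 := wr_ne_zero (phi ξ T) hTne r g hli
    rw [← Matrix.det_transpose] at h1
    exact h1
  set CV : Matrix (Fin r) (Fin N) K⟦X⟧ := (Matrix.of fun (j : Fin r) (i : Fin N) => PowerSeries.C (C i j)) * V with hCV
  have hMW : M.map (phi ξ) * W = G * (Matrix.of fun (j : Fin r) (i : Fin N) => PowerSeries.C (C i j)) := by
    refine Matrix.ext fun k l => ?_
    rw [Matrix.mul_apply, Matrix.mul_apply]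
    have h1 := hiter k l
    rw [hDlin k l] at h1
    simp only [hM, hG, hW, Matrix.map_apply, Matrix.of_apply]
    rw [← h1]
    exact Finset.sum_congr rfl fun j _ => mul_comm _ _
  have hMG : M.map (phi ξ) = G * CV := by
    rw [hCV, ← Matrix.mul_assoc, ← hMW, Matrix.mul_assoc, hWV, Matrix.mul_one]
  have hminor : ∀ f : Fin r → Fin N, phi ξ (M.submatrix id f).det = G.det * (CV.submatrix id f).det := by
    intro f
    rw [RingHom.map_det, ← Matrix.det_mul]
    congr 1
    have h1 : (phi ξ).mapMatrix (M.submatrix id f) = (M.map (phi ξ)).submatrix id f := rfl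
    rw [h1, hMG]
    rfl
  have hCVE : ∀ f : Fin r → Fin N, (CV.submatrix id f).det ∈ Submodule.span K S := by
    intro f
    have h1 : CV.submatrix id f = Matrix.of fun j j' => ∑ l, PowerSeries.C (C l j) * V l (f j') := by
      refine Matrix.ext fun j j' => ?_
      rw [Matrix.submatrix_apply, hCV, Matrix.mul_apply]
      rfl
    rw [h1, det_expand (fun (j : Fin r) (l : Fin N) => PowerSeries.C (C l j)) (fun _ l j' => V l (f j'))]
    refine Submodule.sum_mem _ fun s _ => ?_
    rw [← map_prod, ← PowerSeries.smul_eq_C_mul]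
    refine Submodule.smul_mem _ _ (Submodule.subset_span ?_)
    exact ⟨⟨⟨r, hrN⟩, s, f⟩, rfl⟩
  obtain ⟨f, hf⟩ : ∃ f : Fin r → Fin N, (M.submatrix id f).det ≠ 0 := by
    by_contra hcon
    push Not at hcon
    apply hGdet
    have h1 : G.transpose = Matrix.of fun (j k : Fin r) => ∑ i, W i (h j) * phi ξ (M k i) := by
      refine Matrix.ext fun j k => ?_
      rw [Matrix.transpose_apply, Matrix.of_apply, hG, Matrix.of_apply, hg, Function.comp_apply, hiter]
      exact Finset.sum_congr rfl fun i _ => mul_comm _ _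
    rw [← Matrix.det_transpose, h1,
      det_expand (fun (j : Fin r) (i : Fin N) => W i (h j)) (fun _ i k => phi ξ (M k i))]
    refine Finset.sum_eq_zero fun s _ => ?_
    have h2 := congrArg (phi ξ) (hcon s)
    rw [RingHom.map_det, map_zero, ← Matrix.det_transpose] at h2
    have h3 : (Matrix.of fun (j k : Fin r) => phi ξ (M k (s j))) =
        ((phi ξ).mapMatrix (M.submatrix id s)).transpose := rfl
    rw [h3, h2, mul_zero]
  have hv : (CV.submatrix id f).det ≠ 0 := by
    intro h1
    apply hf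
    apply phi_injective ξ
    rw [hminor, h1, mul_zero, map_zero]
  obtain ⟨b, hb0, hbc, hb⟩ := hc _ (hCVE f) hv
  have ha : ∀ j i, ∃ a : Polynomial K, a.natDegree ≤ c ∧
      (M.submatrix id f).det * a = (M.submatrix id (Function.update f j i)).det * b := by
    intro j i
    apply hb _ (hCVE (Function.update f j i))
    rw [hminor, hminor]
    ring
  choose a ha1 ha2 using ha
  refine ⟨r, f, a, b, hr0, hrN, hb0, ha1, ?_, hf, ?_⟩
  · intro j
    have h1 := ha2 j (f j)
    rw [Function.update_eq_self] at h1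
    exact mul_left_cancel₀ hf h1
  · intro k i
    have h1 := congrFun (Matrix.mulVec_cramer (M.submatrix id f) (fun k => M k i)) k
    simp only [Matrix.mulVec, dotProduct, Pi.smul_apply, smul_eq_mul, Matrix.cramer_apply] at h1
    have h2 : ∀ j, ((M.submatrix id f).updateCol j (fun k => M k i)) = M.submatrix id (Function.update f j i) := by
      intro j
      refine Matrix.ext fun k' j' => ?_
      rw [Matrix.updateCol_apply, Matrix.submatrix_apply, Matrix.submatrix_apply]
      by_cases hj : j' = j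
      · subst hj
        rw [if_pos rfl, Function.update_self]
        rfl
      · rw [if_neg hj, Function.update_of_ne hj]
    simp only [h2] at h1
    apply mul_left_cancel₀ hf
    calc (M.submatrix id f).det * (b * (nab T B)^[(k : ℕ)] P i)
        = b * ((M.submatrix id f).det * M k i) := by rw [hM]; simp only [Matrix.of_apply]; ring
      _ = b * ∑ j, M.submatrix id f k j * (M.submatrix id (Function.update f j i)).det := by rw [← h1]
      _ = ∑ j, M k (f j) * ((M.submatrix id f).det * a j i) := by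
          rw [Finset.mul_sum]
          refine Finset.sum_congr rfl fun j _ => ?_
          rw [ha2]
          simp only [Matrix.submatrix_apply, id]
          ring
      _ = (M.submatrix id f).det * ∑ j, (nab T B)^[(k : ℕ)] P (f j) * a j i := by
          rw [Finset.mul_sum]
          refine Finset.sum_congr rfl fun j _ => ?_
          simp only [hM, Matrix.of_apply]
          ring

theorem dvd_deriv {t f : K⟦X⟧} {p : ℕ} (h : (X : K⟦X⟧) ^ (p + 1) ∣ f) : (X : K⟦X⟧) ^ p ∣ t * d⁄dX K f := by
  apply Dvd.dvd.mul_left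
  rw [PowerSeries.X_pow_dvd_iff] at h ⊢
  intro l hl
  rw [PowerSeries.coeff_derivative, h (l + 1) (by omega), zero_mul]

theorem dvd_iter {t f : K⟦X⟧} {m : ℕ} (h : (X : K⟦X⟧) ^ m ∣ f) (k : ℕ) :
    (X : K⟦X⟧) ^ (m - k) ∣ (fun f => t * d⁄dX K f)^[k] f := by
  induction k with
  | zero => simpa using h
  | succ k ih =>
    rw [Function.iterate_succ_apply']
    rcases Nat.eq_zero_or_pos (m - k) with h0 | h0
    · rw [show m - (k + 1) = 0 by omega, pow_zero]
      exact one_dvd _
    · apply dvd_deriv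
      rw [show m - (k + 1) + 1 = m - k by omega]
      exact ih

theorem mem_form {N c : ℕ} (y : Fin N → K⟦X⟧) (a : Fin N → Polynomial K) (ha : ∀ i, (a i).natDegree ≤ c) :
    ∑ i, (a i : K⟦X⟧) * y i ∈ Submodule.span K (Set.range
      (fun p : Fin (c + 1) × Fin N => (X : K⟦X⟧) ^ (p.1 : ℕ) * y p.2)) := by
  refine Submodule.sum_mem _ fun i _ => ?_
  have h1 : (a i : K⟦X⟧) = ∑ l : Fin (c + 1), PowerSeries.C ((a i).coeff l) * (X : K⟦X⟧) ^ (l : ℕ) := by
    ext k
    rw [Polynomial.coeff_coe, map_sum]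
    simp only [coeff_C_mul, coeff_X_pow]
    by_cases hk : k < c + 1
    · rw [Finset.sum_eq_single (⟨k, hk⟩ : Fin (c + 1))]
      · simp
      · intro l _ hl
        have : k ≠ (l : ℕ) := fun h => hl (Fin.ext h.symm)
        simp [this]
      · simp
    · rw [Polynomial.coeff_eq_zero_of_natDegree_lt (by have := ha i; omega)]
      symm
      refine Finset.sum_eq_zero fun l _ => ?_
      have : k ≠ (l : ℕ) := by have := l.2; omega
      simp [this]
  rw [h1, Finset.sum_mul]
  refine Submodule.sum_mem _ fun l _ => ?_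
  rw [mul_assoc, ← PowerSeries.smul_eq_C_mul]
  exact Submodule.smul_mem _ _ (Submodule.subset_span ⟨(l, i), rfl⟩)

theorem t_shid : Pool.Agent.Y113.T_shid := by
  intro K _ _ N T B y ξ hT hy hyind
  classical
  obtain ⟨c1, hc1⟩ := alg_part T B ξ hT
  set S : Set K⟦X⟧ := Set.range (fun p : Fin (c1 + 1) × Fin N => (X : K⟦X⟧) ^ (p.1 : ℕ) * y p.2) with hS
  have hfin : Module.Finite K (Submodule.span K S) := Module.Finite.span_of_finite K (Set.finite_range _)
  obtain ⟨c2, hc2⟩ := order_bound (Submodule.span K S)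
  obtain ⟨δ, hδT, hδB⟩ : ∃ δ, T.natDegree ≤ δ ∧ ∀ i j, (B i j).natDegree ≤ δ := by
    refine ⟨max T.natDegree (Finset.univ.sup fun p : Fin N × Fin N => (B p.1 p.2).natDegree), le_max_left _ _, ?_⟩
    intro i j
    exact (Finset.le_sup (f := fun p : Fin N × Fin N => (B p.1 p.2).natDegree) (Finset.mem_univ (i, j))).trans
      (le_max_right _ _)
  refine ⟨N + (N - 1) * (N * δ) + c2, fun n m P hP hPn hord hm hdet => ?_⟩
  obtain ⟨r, f, a, b, hr0, hrN, hb0, ha1, ha2, hfdet, hrel⟩ := hc1 P hP hdet
  set A : Matrix (Fin r) (Fin r) (Polynomial K) := Matrix.of fun k j : Fin r => ((nab T B)^[(k : ℕ)] P) (f j) with hA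
  set co : Polynomial K →+* K⟦X⟧ := Polynomial.coeToPowerSeries.ringHom with hco
  have hco' : ∀ p : Polynomial K, co p = (p : K⟦X⟧) := fun p => rfl
  set R : K⟦X⟧ := ∑ i, co (P i) * y i with hR
  have hRm : (X : K⟦X⟧) ^ m ∣ R := by
    rw [PowerSeries.X_pow_dvd_iff]
    exact hord
  have hiter : ∀ k : ℕ, (fun f => co T * d⁄dX K f)^[k] R = ∑ i, co ((nab T B)^[k] P i) * y i := fun k =>
    iter_form co (fun p => PowerSeries.derivative_coe p) T B y hy P k
  set φ : Fin r → K⟦X⟧ := fun j => ∑ i, (a j i : K⟦X⟧) * y i with hφ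
  have hmul : (co.mapMatrix A).mulVec φ = fun k : Fin r => co b * (fun f => co T * d⁄dX K f)^[(k : ℕ)] R := by
    funext k
    rw [hiter, Finset.mul_sum]
    simp only [Matrix.mulVec, dotProduct, hφ, Finset.mul_sum]
    rw [Finset.sum_comm]
    refine Finset.sum_congr rfl fun i _ => ?_
    rw [← mul_assoc, ← map_mul, hrel k i, map_sum, Finset.sum_mul]
    refine Finset.sum_congr rfl fun j _ => ?_
    rw [map_mul, ← hco', mul_assoc]
    rfl
  have hadj := congrArg (fun v => (co.mapMatrix A).adjugate.mulVec v) hmul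
  simp only [Matrix.mulVec_mulVec, Matrix.adjugate_mul, Matrix.smul_mulVec, Matrix.one_mulVec] at hadj
  have h0 := congrFun hadj ⟨0, hr0⟩
  simp only [Pi.smul_apply, smul_eq_mul] at h0
  have hdvd : (X : K⟦X⟧) ^ (m - r) ∣ (co.mapMatrix A).det * φ ⟨0, hr0⟩ := by
    rw [h0]
    simp only [Matrix.mulVec, dotProduct]
    refine Finset.dvd_sum fun k _ => ?_
    apply Dvd.dvd.mul_left
    apply Dvd.dvd.mul_left
    refine dvd_trans (pow_dvd_pow _ ?_) (dvd_iter hRm k)
    have := k.2
    omega
  rw [← RingHom.map_det, PowerSeries.X_pow_dvd_iff] at hdvd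
  have hle : ((m - r : ℕ) : ℕ∞) ≤ (co A.det * φ ⟨0, hr0⟩).order := PowerSeries.nat_le_order _ _ hdvd
  rw [PowerSeries.order_mul] at hle
  -- the orders
  have hq : (co A.det).order ≤ (A.det.natDegree : ℕ∞) := by
    apply PowerSeries.order_le
    rw [hco', Polynomial.coeff_coe]
    exact Polynomial.leadingCoeff_ne_zero.mpr hfdet
  have hφ0 : φ ⟨0, hr0⟩ ≠ 0 := by
    intro h
    have h1 := Fintype.linearIndependent_iff.mp hyind (a ⟨0, hr0⟩) (by
      simp only [smul_eq']
      exact h) (f ⟨0, hr0⟩)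
    rw [ha2] at h1
    exact hb0 h1
  obtain ⟨l, hl1, hl2⟩ := hc2 (φ ⟨0, hr0⟩) (mem_form y (a ⟨0, hr0⟩) (ha1 ⟨0, hr0⟩)) hφ0
  have hφord : (φ ⟨0, hr0⟩).order ≤ (l : ℕ∞) := PowerSeries.order_le _ hl2
  have hdeg : A.det.natDegree ≤ r * (n + N * δ) := by
    apply natDegree_det_le
    intro k j
    have h1 := natDegree_nab T B hδT hδB P hPn k (f j)
    have h2 : (k : ℕ) * δ ≤ N * δ := Nat.mul_le_mul_right _ (by have := k.2; omega)
    simp only [hA, Matrix.of_apply]
    omega
  have hfinal : ((m - r : ℕ) : ℕ∞) ≤ ((A.det.natDegree + l : ℕ) : ℕ∞) := by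
    push_cast
    exact hle.trans (add_le_add hq hφord)
  have hfinal' : m - r ≤ A.det.natDegree + l := by exact_mod_cast hfinal
  have h5 : r * (n + N * δ) ≤ (N - 1) * (n + N * δ) := Nat.mul_le_mul_right _ (by omega)
  have h6 : (N - 1) * (n + N * δ) = (N - 1) * n + (N - 1) * (N * δ) := by ring
  omega

end Pool.Agent.Y141.GF
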